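import Pool.Agent.Lib.MP_485c8a_al.Main

set_option autoImplicit false

namespace Pool.Agent.Results.MP_485c8a_al.Products

open Pool.Agent.Lib.MP_485c8a_al

theorem small (K : Type) [Field K] (n : ℕ) (hn : 3 ≤ n) (A B : Matrix (Fin n) (Fin n) K)
    (hA : A.det = 1) (hB : B.det = 1) (hA' : ∀ c : K, A ≠ c • 1) (hB' : ∀ c : K, B ≠ c • 1) :
    ∃ g : Fin n → Matrix.GeneralLinearGroup (Fin n) K,
      B = (List.ofFn (fun i => ((g i : Matrix.GeneralLinearGroup (Fin n) K) :
        Matrix (Fin n) (Fin n) K) * A *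
        (((g i)⁻¹ : Matrix.GeneralLinearGroup (Fin n) K) : Matrix (Fin n) (Fin n) K))).prod := by
  have nc : ∀ (M : Matrix (Fin n) (Fin n) K) (h : M.det = 1), (∀ c : K, M ≠ c • 1) →
      (⟨M, h⟩ : Matrix.SpecialLinearGroup (Fin n) K) ∉
        Subgroup.center (Matrix.SpecialLinearGroup (Fin n) K) := by
    intro M h h' hc
    obtain ⟨r, -, hr⟩ := (Matrix.SpecialLinearGroup.mem_center_iff (A := ⟨M, h⟩)).1 hc
    apply h' r
    have : Matrix.scalar (Fin n) r = M := hr
    rw [← this]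
    ext i j
    simp [Matrix.scalar_apply, Matrix.diagonal_apply, Matrix.one_apply]
  obtain ⟨A1, a1, a2, a3⟩ := sl_facts ⟨A, hA⟩ (nc A hA hA')
  obtain ⟨B1, b1, b2, b3⟩ := sl_facts ⟨B, hB⟩ (nc B hB hB')
  have h := main_lin (by simp; omega) a2 b2 a3 b3
  have hf : Module.finrank K (Fin n → K) = n := by simp
  rw [hf] at h
  have b1' : LinearMap.toMatrix' (B1 : (Fin n → K) →ₗ[K] (Fin n → K)) = B := b1
  rw [← b1']
  exact pp_matrix _ a1 h

universe u

theorem result (F : Type u) [Field F] (n : ℕ) (hn : 3 ≤ n) (A B : Matrix (Fin n) (Fin n) F)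
    (hA : A.det = 1) (hB : B.det = 1) (hA' : ∀ c : F, A ≠ c • 1) (hB' : ∀ c : F, B ≠ c • 1) :
    ∃ b : Fin n → Matrix (Fin n) (Fin n) F,
      (∀ i, ∃ g h : Matrix (Fin n) (Fin n) F, g * h = 1 ∧ h * g = 1 ∧ b i = g * A * h) ∧
      B = (List.ofFn b).prod := by
  classical
  let s : Set F := Set.range (fun p : Fin n × Fin n => A p.1 p.2) ∪
    Set.range (fun p : Fin n × Fin n => B p.1 p.2)
  have hs : s.Finite := (Set.finite_range _).union (Set.finite_range _)
  let L : Subfield F := Subfield.closure s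
  have hL : Countable L := by
    have h1 := Subfield.cardinalMk_closure_le_max s
    have h2 : Cardinal.mk s ≤ Cardinal.aleph0 := by
      have := hs.to_subtype
      exact Cardinal.mk_le_aleph0
    exact Cardinal.mk_le_aleph0_iff.1 (h1.trans (max_le h2 le_rfl))
  have hsm : Small.{0} L := inferInstance
  let K : Type := Shrink.{0} L
  let e : K ≃+* L := Shrink.ringEquiv L
  let f : K →+* F := L.subtype.comp e.toRingHom
  have hfi : Function.Injective f := f.injective
  have hmem : ∀ x ∈ s, ∃ y : K, f y = x := by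
    intro x hx
    exact ⟨e.symm ⟨x, Subfield.subset_closure hx⟩, by simp [f]⟩
  choose A0 hA0 using fun p : Fin n × Fin n => hmem (A p.1 p.2) (Or.inl ⟨p, rfl⟩)
  choose B0 hB0 using fun p : Fin n × Fin n => hmem (B p.1 p.2) (Or.inr ⟨p, rfl⟩)
  let A1 : Matrix (Fin n) (Fin n) K := Matrix.of fun i j => A0 (i, j)
  let B1 : Matrix (Fin n) (Fin n) K := Matrix.of fun i j => B0 (i, j)
  have eA : f.mapMatrix A1 = A := by ext i j; simpa [A1] using hA0 (i, j)
  have eB : f.mapMatrix B1 = B := by ext i j; simpa [B1] using hB0 (i, j)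
  have dt : ∀ (M : Matrix (Fin n) (Fin n) K), (f.mapMatrix M).det = 1 → M.det = 1 := by
    intro M h
    apply hfi
    rw [RingHom.map_det, h, map_one]
  have ns : ∀ (M : Matrix (Fin n) (Fin n) K), (∀ c : F, f.mapMatrix M ≠ c • 1) →
      ∀ c : K, M ≠ c • 1 := by
    intro M h c hc
    apply h (f c)
    rw [hc]
    ext i j
    by_cases hij : i = j <;> simp [hij]
  obtain ⟨g, hg⟩ := small K n hn A1 B1 (dt _ (eA ▸ hA)) (dt _ (eB ▸ hB))
    (ns _ (eA ▸ hA')) (ns _ (eB ▸ hB'))
  refine ⟨fun i => f.mapMatrix ((g i : Matrix (Fin n) (Fin n) K) * A1 *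
    (((g i)⁻¹ : Matrix.GeneralLinearGroup (Fin n) K) : Matrix (Fin n) (Fin n) K)), ?_, ?_⟩
  · intro i
    refine ⟨f.mapMatrix (g i : Matrix (Fin n) (Fin n) K),
      f.mapMatrix (((g i)⁻¹ : Matrix.GeneralLinearGroup (Fin n) K) : Matrix (Fin n) (Fin n) K),
      ?_, ?_, ?_⟩
    · rw [← map_mul, Units.mul_inv, map_one]
    · rw [← map_mul, Units.inv_mul, map_one]
    · show f.mapMatrix _ = _
      rw [map_mul, map_mul, eA]
  · rw [← eB, hg, map_list_prod, List.map_ofFn]
    rfl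

end Pool.Agent.Results.MP_485c8a_al.Products
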